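import Mathlib

set_option autoImplicit false

namespace Pool.Agent.H.MP_8e2340_co

open Filter

lemma zero_of_inv {G : Type*} [AddCommGroup G] (h : G → ℤ) (s : G) (hs : ∀ n : ℕ, 0 < n → n • s ≠ 0)
    (hf : ∀ᶠ z in cofinite, h z = 0) (hi : ∀ z, h (z + s) = h z) : ∀ z, h z = 0 := by
  intro z
  have hinj : Function.Injective (fun n : ℕ => z + n • s) := by
    intro m n hmn
    have h1 : m • s = n • s := add_left_cancel hmn
    rcases lt_trichotomy m n with h2 | h2 | h2
    · exfalso
      obtain ⟨k, rfl⟩ := Nat.exists_eq_add_of_lt h2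
      apply hs (k + 1) (Nat.succ_pos k)
      rw [add_assoc, add_smul m (k + 1)] at h1
      exact (add_eq_left.mp h1.symm)
    · exact h2
    · exfalso
      obtain ⟨k, rfl⟩ := Nat.exists_eq_add_of_lt h2
      apply hs (k + 1) (Nat.succ_pos k)
      rw [add_assoc, add_smul n (k + 1)] at h1
      exact (add_eq_left.mp h1)
  have hall : ∀ n : ℕ, h (z + n • s) = h z := by
    intro n
    induction n with
    | zero => simp
    | succ n ih => rw [succ_nsmul, ← add_assoc, hi, ih]
  obtain ⟨n, hn⟩ := (hinj.tendsto_cofinite.eventually hf).exists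
  rw [← hall n]; exact hn

lemma zero_of_inv' (h : ℂ → ℤ) (s : ℂ) (hs : s ≠ 0)
    (hf : ∀ᶠ z in cofinite, h z = 0) (hi : ∀ z, h (z + s) = h z) : ∀ z, h z = 0 := by
  refine zero_of_inv h s (fun n hn => ?_) hf hi
  rw [nsmul_eq_mul]
  exact mul_ne_zero (by exact_mod_cast hn.ne') hs

/-- a periodic function stays invariant under every almost symmetry normalising translations -/
lemma star (c0 : ℂ → ℤ) (t : ℂ) (ht : t ≠ 0) (hinv : ∀ z, c0 (z + t) = c0 z) (g : ℂ ≃ ℂ) (s : ℂ)
    (hg : ∀ z, g (z + t) = g z + s) (hai : ∀ᶠ z in cofinite, c0 (g z) = c0 z) :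
    ∀ z, c0 (g z) = c0 z := by
  have h1 : ∀ᶠ z in cofinite, c0 (g z + s) = c0 (g z) := by
    have h2 := (add_left_injective t).tendsto_cofinite.eventually hai
    filter_upwards [h2, hai] with z e1 e2
    rw [← hg, e1, hinv, e2]
  have h2 : ∀ᶠ z in cofinite, c0 (z + s) - c0 z = 0 := by
    filter_upwards [g.symm.injective.tendsto_cofinite.eventually h1] with z e
    simp only [Equiv.apply_symm_apply] at e
    rw [e, sub_self]
  have h3 := zero_of_inv' (fun z => c0 (z + s) - c0 z) t ht h2 (fun z => by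
    rw [add_right_comm, hinv, hinv])
  have h4 := zero_of_inv' (fun z => c0 (g z) - c0 z) t ht
    (hai.mono (fun z e => by simp [e])) (fun z => by
      rw [hg, hinv, sub_eq_zero.mp (h3 (g z))])
  exact fun z => sub_eq_zero.mp (h4 z)

abbrev Q (t : ℂ) := ℂ ⧸ AddSubgroup.zmultiples t

noncomputable def pr (t : ℂ) (f : ℂ →₀ ℤ) : Q t →₀ ℤ :=
  Finsupp.mapDomain (QuotientAddGroup.mk : ℂ → Q t) f

lemma cob (t : ℂ) (f : ℂ →₀ ℤ) (hf : pr t f = 0) :
    ∃ x : ℂ →₀ ℤ, ∀ z, x (z + t) - x z = f z := by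
  classical
  let B : AddSubgroup (ℂ →₀ ℤ) :=
    { carrier := {f | ∃ x : ℂ →₀ ℤ, ∀ z, x (z + t) - x z = f z}
      add_mem' := by
        rintro f g ⟨x, hx⟩ ⟨y, hy⟩
        exact ⟨x + y, fun z => by simp only [Finsupp.add_apply]; rw [← hx, ← hy]; ring⟩
      zero_mem' := ⟨0, fun z => by simp⟩
      neg_mem' := by
        rintro f ⟨x, hx⟩
        exact ⟨-x, fun z => by simp only [Finsupp.neg_apply]; rw [← hx]; ring⟩ }
  have h1 : ∀ z n, Finsupp.single z n - Finsupp.single (z + t) n ∈ B := by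
    intro z n
    refine ⟨Finsupp.single (z + t) n, fun y => ?_⟩
    simp only [Finsupp.sub_apply, Finsupp.single_apply, add_left_inj]
  have h2 : ∀ (k : ℤ) z n, Finsupp.single z n - Finsupp.single (z + k • t) n ∈ B := by
    intro k
    induction k using Int.induction_on with
    | zero => intro z n; simp [B.zero_mem]
    | succ k ih =>
      intro z n
      have := B.add_mem (ih z n) (h1 (z + (k : ℤ) • t) n)
      rw [sub_add_sub_cancel] at this
      rw [add_smul, one_smul, ← add_assoc]; exact this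
    | pred k ih =>
      intro z n
      have := B.sub_mem (ih z n) (h1 (z + (-(k : ℤ) - 1) • t) n)
      have e : z + (-(k : ℤ) - 1) • t + t = z + (-(k : ℤ)) • t := by
        rw [sub_smul, one_smul]; ring
      rw [e, sub_sub_sub_cancel_right] at this
      exact this
  have h3 : ∀ f : ℂ →₀ ℤ, f - Finsupp.mapDomain (Quotient.out ∘ (QuotientAddGroup.mk : ℂ → Q t)) f ∈ B := by
    intro f
    induction f using Finsupp.induction_linear with
    | zero => simp [B.zero_mem]
    | add f g hf hg =>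
      rw [Finsupp.mapDomain_add]
      have := B.add_mem hf hg
      rw [← add_sub_add_comm] at this
      exact this
    | single z n =>
      rw [Finsupp.mapDomain_single]
      obtain ⟨⟨u, k, rfl⟩, hu⟩ := QuotientAddGroup.mk_out_eq_add (AddSubgroup.zmultiples t) z
      simp only [Function.comp]
      rw [hu]
      exact h2 k z n
  have h4 := h3 f
  rw [Finsupp.mapDomain_comp] at h4
  unfold pr at hf
  rw [hf, Finsupp.mapDomain_zero, sub_zero] at h4
  exact h4

lemma shiftinv (c : ℂ → ℤ) (s t : ℂ) (f g : ℂ →₀ ℤ) (hf : ∀ z, c (z + t) - c z = f z)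
    (hg : ∀ z, c (z + s) - c z = g z) : ∀ q : Q t, pr t f (q + (s : Q t)) = pr t f q := by
  have e : ∀ (u : ℂ) (h : ℂ →₀ ℤ) z, Finsupp.mapDomain (fun y => y - u) h z = h (z + u) := by
    intro u h z
    have := Finsupp.mapDomain_apply (f := fun y : ℂ => y - u) (sub_left_injective) h (z + u)
    simpa using this
  have h1 : Finsupp.mapDomain (fun y => y - s) f + g = Finsupp.mapDomain (fun y => y - t) g + f := by
    ext z
    simp only [Finsupp.add_apply, e]
    rw [← hf, ← hg, ← hf, ← hg, add_right_comm z s t]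
    ring
  have h2 := congrArg (pr t) h1
  unfold pr at h2 ⊢
  rw [Finsupp.mapDomain_add, Finsupp.mapDomain_add, ← Finsupp.mapDomain_comp,
    ← Finsupp.mapDomain_comp] at h2
  have e1 : (QuotientAddGroup.mk : ℂ → Q t) ∘ (fun y => y - t) = QuotientAddGroup.mk := by
    funext y
    simp only [Function.comp]
    rw [QuotientAddGroup.eq]
    simp
  have e2 : (QuotientAddGroup.mk : ℂ → Q t) ∘ (fun y => y - s) =
      (fun q : Q t => q - (s : Q t)) ∘ QuotientAddGroup.mk := by
    funext y; rfl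
  rw [e1, e2, add_comm, add_right_inj, Finsupp.mapDomain_comp] at h2
  intro q
  have := Finsupp.mapDomain_apply (f := fun q : Q t => q - (s : Q t)) (sub_left_injective)
    (Finsupp.mapDomain (QuotientAddGroup.mk : ℂ → Q t) f) (q + (s : Q t))
  rw [h2] at this
  simpa using this.symm

/-- `c` differs from a `t`-periodic function in finitely many places -/
def Per (c : ℂ → ℤ) : Prop :=
  ∃ t : ℂ, t ≠ 0 ∧ ∃ c0 : ℂ → ℤ, (∀ᶠ z in cofinite, c0 z = c z) ∧ ∀ z, c0 (z + t) = c0 z

lemma per_of_pr (c : ℂ → ℤ) (t : ℂ) (ht : t ≠ 0) (f : ℂ →₀ ℤ) (hf : ∀ z, c (z + t) - c z = f z)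
    (h0 : pr t f = 0) : Per c := by
  obtain ⟨x, hx⟩ := cob t f h0
  refine ⟨t, ht, fun z => c z - x z, ?_, fun z => ?_⟩
  · have : ∀ᶠ z in cofinite, z ∉ x.support := x.support.eventually_cofinite_notMem
    exact this.mono (fun z hz => by simp [Finsupp.notMem_support_iff.mp hz])
  · have := hf z; have := hx z
    simp only
    linarith

lemma ex_fs (c : ℂ → ℤ) (t : ℂ) (h : ∀ᶠ z in cofinite, c (z + t) = c z) :
    ∃ f : ℂ →₀ ℤ, ∀ z, c (z + t) - c z = f z := by
  refine ⟨Finsupp.ofSupportFinite (fun z => c (z + t) - c z) ?_, fun z => rfl⟩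
  rw [Filter.eventually_cofinite] at h
  exact h.subset (fun z hz => fun e => hz (by simp [e]))

lemma per_of_indep (c : ℂ → ℤ) (s t : ℂ) (ht : t ≠ 0)
    (hi : ∀ n : ℕ, 0 < n → ∀ k : ℤ, (n : ℂ) * s ≠ k * t)
    (h1 : ∀ᶠ z in cofinite, c (z + t) = c z) (h2 : ∀ᶠ z in cofinite, c (z + s) = c z) : Per c := by
  obtain ⟨f, hf⟩ := ex_fs c t h1
  obtain ⟨g, hg⟩ := ex_fs c s h2
  apply per_of_pr c t ht f hf
  ext q
  refine zero_of_inv (pr t f) (s : Q t) (fun n hn h => ?_) ?_ (shiftinv c s t f g hf hg) q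
  · rw [← QuotientAddGroup.mk_nsmul, QuotientAddGroup.eq_zero_iff] at h
    obtain ⟨k, hk⟩ := h
    apply hi n hn k
    simp only [zsmul_eq_mul, nsmul_eq_mul] at hk
    exact hk.symm
  · have : ∀ᶠ z in cofinite, z ∉ (pr t f).support := (pr t f).support.eventually_cofinite_notMem
    exact this.mono (fun z hz => Finsupp.notMem_support_iff.mp hz)

end Pool.Agent.H.MP_8e2340_co
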