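import Mathlib

set_option autoImplicit false

namespace Pool.Agent.H.MP_8e2340_co

open Complex Finset

noncomputable def cen (Y : Finset ℂ) : ℂ := (∑ y ∈ Y, y) / (Y.card : ℂ)

lemma cen_fix (Y : Finset ℂ) (hY : Y.Nonempty) (a b : ℂ) (ha : a ≠ 0)
    (hm : ∀ z ∈ Y, a * z + b ∈ Y) : a * cen Y + b = cen Y := by
  classical
  have hinj : Function.Injective (fun z : ℂ => a * z + b) := by
    intro x y h
    exact mul_left_cancel₀ ha (add_right_cancel h)
  have him : Y.image (fun z : ℂ => a * z + b) = Y := by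
    apply Finset.eq_of_subset_of_card_le
    · intro y hy
      obtain ⟨z, hz, rfl⟩ := Finset.mem_image.mp hy
      exact hm z hz
    · rw [Finset.card_image_of_injective _ hinj]
  have hs : ∑ y ∈ Y, y = ∑ y ∈ Y, (a * y + b) := by
    conv_lhs => rw [← him]
    rw [Finset.sum_image (fun x _ y _ h => hinj h)]
  rw [Finset.sum_add_distrib, ← Finset.mul_sum, Finset.sum_const, nsmul_eq_mul] at hs
  have hc : (Y.card : ℂ) ≠ 0 := by exact_mod_cast hY.card_pos.ne'
  unfold cen
  field_simp
  linear_combination -hs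

def Sym (Y : Finset ℂ) : Prop :=
  ∃ a b : ℂ, ‖a‖ = 1 ∧ ¬ (a = 1 ∧ b = 0) ∧ ∀ z ∈ Y, a * z + b ∈ Y

lemma far (Y : Finset ℂ) (hY : Y.Nonempty) (h : Sym Y) (o' : ℂ) :
    ∃ y ∈ Y, (∀ y' ∈ Y, normSq (y' - cen Y) ≤ normSq (y - cen Y)) ∧
      normSq (y - cen Y) + normSq (cen Y - o') ≤ normSq (y - o') := by
  classical
  obtain ⟨a, b, ha, hne, hm⟩ := h
  have ha0 : a ≠ 0 := by rintro rfl; simp at ha
  have hfix := cen_fix Y hY a b ha0 hm
  have ha1 : a ≠ 1 := by
    rintro rfl
    exact hne ⟨rfl, by linear_combination hfix⟩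
  set o := cen Y with ho
  obtain ⟨y0, hy0, hmax⟩ := Y.exists_max_image (fun y => normSq (y - o)) hY
  set Z := Y.filter (fun y => normSq (y - o) = normSq (y0 - o)) with hZ
  have hZne : Z.Nonempty := ⟨y0, by simp [hZ, hy0]⟩
  have hna : normSq a = 1 := by rw [Complex.normSq_eq_norm_sq, ha]; norm_num
  have hZm : ∀ z ∈ Z, a * z + b ∈ Z := by
    intro z hz
    rw [hZ, Finset.mem_filter] at hz ⊢
    refine ⟨hm z hz.1, ?_⟩
    have : a * z + b - o = a * (z - o) := by linear_combination hfix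
    rw [this, map_mul, hna, one_mul, hz.2]
  have hZfix := cen_fix Z hZne a b ha0 hZm
  have hcen : cen Z = o := by
    have : (a - 1) * (cen Z - o) = 0 := by linear_combination hZfix - hfix
    rcases mul_eq_zero.mp this with h | h
    · exact absurd (sub_eq_zero.mp h) ha1
    · exact sub_eq_zero.mp h
  have hc : (Z.card : ℂ) ≠ 0 := by exact_mod_cast hZne.card_pos.ne'
  have hsum : ∑ y ∈ Z, (y - o) = 0 := by
    rw [Finset.sum_sub_distrib, Finset.sum_const, nsmul_eq_mul, ← hcen]
    unfold cen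
    field_simp
    ring
  have hre : ∑ y ∈ Z, ((y - o) * (starRingEnd ℂ) (o - o')).re = 0 := by
    rw [← Complex.re_sum, ← Finset.sum_mul, hsum]; simp
  have : ∃ y ∈ Z, 0 ≤ ((y - o) * (starRingEnd ℂ) (o - o')).re := by
    by_contra hc
    push Not at hc
    have := Finset.sum_lt_sum_of_nonempty hZne hc
    rw [hre] at this
    simp at this
  obtain ⟨y, hy, hpos⟩ := this
  rw [hZ, Finset.mem_filter] at hy
  refine ⟨y, hy.1, fun y' hy' => by rw [hy.2]; exact hmax y' hy', ?_⟩
  have : y - o' = (y - o) + (o - o') := by ring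
  rw [this, Complex.normSq_add]
  linarith

lemma cen_insert (Y : Finset ℂ) (w : ℂ) (hw : w ∉ Y) (hY : Y.Nonempty) [DecidableEq ℂ] :
    ((Y.card : ℂ) + 1) * cen (insert w Y) = w + Y.card * cen Y := by
  have hc : (Y.card : ℂ) ≠ 0 := by exact_mod_cast hY.card_pos.ne'
  have hc1 : (Y.card : ℂ) + 1 ≠ 0 := by exact_mod_cast (Nat.succ_ne_zero Y.card)
  unfold cen
  rw [Finset.sum_insert hw, Finset.card_insert_of_notMem hw]
  push_cast
  field_simp

lemma edge (Y : Finset ℂ) (w : ℂ) (hw : w ∉ Y) (hY : Y.Nonempty) [DecidableEq ℂ]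
    (h1 : Sym Y) (h2 : Sym (insert w Y)) :
    w = cen (insert w Y) ∨ ∀ y ∈ insert w Y,
      normSq (y - cen (insert w Y)) ≤ normSq (w - cen (insert w Y)) := by
  obtain ⟨y1, hy1, hm1, hf1⟩ := far Y hY h1 (cen (insert w Y))
  obtain ⟨y2, hy2, hm2, hf2⟩ := far (insert w Y) (Finset.insert_nonempty _ _) h2 (cen Y)
  rcases Finset.mem_insert.mp hy2 with rfl | hy2'
  · right; exact hm2
  · left
    have e1 := hm1 y2 hy2'
    have e2 := hm2 y1 (Finset.mem_insert_of_mem hy1)
    have n1 := normSq_nonneg (cen Y - cen (insert w Y))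
    have n2 := normSq_nonneg (cen (insert w Y) - cen Y)
    have : normSq (cen Y - cen (insert w Y)) = 0 := by linarith
    have h3 : cen Y = cen (insert w Y) := sub_eq_zero.mp (normSq_eq_zero.mp this)
    have h4 := cen_insert Y w hw hY
    rw [h3] at h4
    linear_combination -h4

theorem fin_case (T : Finset ℂ) (w : Fin 4 → ℂ) (hw : Function.Injective w) (hT : ∀ i, w i ∉ T)
    [DecidableEq ℂ] (h : ∀ S : Finset (Fin 4), Sym (T ∪ S.image w)) : False := by
  have hins : ∀ S : Finset (Fin 4), ∀ i ∈ S,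
      T ∪ S.image w = insert (w i) (T ∪ (S.erase i).image w) := by
    intro S i hi
    ext z
    simp only [Finset.mem_union, Finset.mem_image, Finset.mem_insert, Finset.mem_erase]
    constructor
    · rintro (h | ⟨j, hj, rfl⟩)
      · exact Or.inr (Or.inl h)
      · by_cases hji : j = i
        · left; rw [hji]
        · exact Or.inr (Or.inr ⟨j, ⟨hji, hj⟩, rfl⟩)
    · rintro (rfl | h | ⟨j, hj, rfl⟩)
      · exact Or.inr ⟨i, hi, rfl⟩
      · exact Or.inl h
      · exact Or.inr ⟨j, hj.2, rfl⟩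
  have hnot : ∀ S : Finset (Fin 4), ∀ i, w i ∉ T ∪ (S.erase i).image w := by
    intro S i
    simp only [Finset.mem_union, Finset.mem_image, Finset.mem_erase, not_or, not_exists, not_and]
    exact ⟨hT i, fun j hj h => hj.1 (hw h)⟩
  have hne : ∀ S : Finset (Fin 4), ∀ i j, j ∈ S → j ≠ i → (T ∪ (S.erase i).image w).Nonempty := by
    intro S i j hj hji
    exact ⟨w j, Finset.mem_union_right _ (Finset.mem_image_of_mem _ (Finset.mem_erase.mpr ⟨hji, hj⟩))⟩
  have hF : ∀ S : Finset (Fin 4), ∀ i ∈ S, ∀ j ∈ S, w i ≠ cen (T ∪ S.image w) →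
      w j ≠ cen (T ∪ S.image w) → ‖w i - cen (T ∪ S.image w)‖ = ‖w j - cen (T ∪ S.image w)‖ := by
    have aux : ∀ S : Finset (Fin 4), ∀ i ∈ S, ∀ j ∈ S, w i ≠ cen (T ∪ S.image w) →
        normSq (w j - cen (T ∪ S.image w)) ≤ normSq (w i - cen (T ∪ S.image w)) := by
      intro S i hi j hj hc
      by_cases hji : j = i
      · rw [hji]
      have := edge _ (w i) (hnot S i) (hne S i j hj hji) (h _) (by rw [← hins S i hi]; exact h S)
      rw [← hins S i hi] at this
      rcases this with h1 | h1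
      · exact absurd h1 hc
      · exact h1 _ (Finset.mem_union_right _ (Finset.mem_image_of_mem _ hj))
    intro S i hi j hj h1 h2
    have := le_antisymm (aux S j hj i hi h2) (aux S i hi j hj h1)
    rw [Complex.normSq_eq_norm_sq, Complex.normSq_eq_norm_sq] at this
    exact (pow_left_inj₀ (norm_nonneg _) (norm_nonneg _) two_ne_zero).mp this
  set o := cen (T ∪ (Finset.univ : Finset (Fin 4)).image w) with ho
  have hc : ∀ i : Fin 4, ∃ m : ℝ, 3 ≤ m ∧
      ‖w i - o‖ = m * ‖cen (T ∪ (Finset.univ.erase i).image w) - o‖ := by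
    intro i
    have hi : ∃ j : Fin 4, j ≠ i := exists_ne i
    obtain ⟨j, hj⟩ := hi
    have h1 := cen_insert _ (w i) (hnot Finset.univ i) (hne Finset.univ i j (Finset.mem_univ _) hj)
    rw [← hins Finset.univ i (Finset.mem_univ _), ← ho] at h1
    refine ⟨((T ∪ (Finset.univ.erase i).image w).card : ℝ), ?_, ?_⟩
    · have : ((Finset.univ.erase i).image w).card = 3 := by
        rw [Finset.card_image_of_injective _ hw, Finset.card_erase_of_mem (Finset.mem_univ _)]
        simp
      have h2 := Finset.card_le_card (Finset.subset_union_right (s₁ := T)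
        (s₂ := (Finset.univ.erase i).image w))
      rw [this] at h2
      exact_mod_cast h2
    · have : w i - o = - (((T ∪ (Finset.univ.erase i).image w).card : ℂ) *
          (cen (T ∪ (Finset.univ.erase i).image w) - o)) := by linear_combination -h1
      rw [this, norm_neg, norm_mul, Complex.norm_natCast]
  by_cases hB : ∃ j, w j = o
  · obtain ⟨j, hj⟩ := hB
    have : ∃ i k : Fin 4, i ≠ j ∧ k ≠ j ∧ k ≠ i := by
      clear hj; revert j; decide
    obtain ⟨i, k, hij, hkj, hki⟩ := this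
    have hi : w i ≠ o := fun h => hij (hw (h.trans hj.symm))
    have hk : w k ≠ o := fun h => hkj (hw (h.trans hj.symm))
    have e1 := hF Finset.univ i (Finset.mem_univ _) k (Finset.mem_univ _) hi hk
    rw [← ho] at e1
    obtain ⟨m, hm, e2⟩ := hc i
    set p := cen (T ∪ (Finset.univ.erase i).image w) with hp
    have hR : 0 < ‖w i - o‖ := norm_pos_iff.mpr (sub_ne_zero.mpr hi)
    have hd := norm_nonneg (p - o)
    have hjp : w j ≠ p := by
      intro h1
      rw [← h1, hj] at e2
      simp at e2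
      exact hi (sub_eq_zero.mp e2)
    have hkp : w k ≠ p := by
      intro h1
      rw [← h1, ← e1] at e2
      nlinarith
    have e3 := hF (Finset.univ.erase i) k (by simp [hki]) j (by simp [Ne.symm hij]) hkp hjp
    rw [← hp, hj, norm_sub_rev o p] at e3
    have e4 : ‖w k - o‖ ≤ ‖w k - p‖ + ‖p - o‖ := by
      have : w k - o = (w k - p) + (p - o) := by ring
      rw [this]; exact norm_add_le _ _
    nlinarith
  · push Not at hB
    have e : ∀ i k, ‖w i - o‖ = ‖w k - o‖ := fun i k =>
      hF Finset.univ i (Finset.mem_univ _) k (Finset.mem_univ _) (hB i) (hB k)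
    obtain ⟨m, hm, e2⟩ := hc 0
    set p := cen (T ∪ (Finset.univ.erase 0).image w) with hp
    have hR : 0 < ‖w 0 - o‖ := norm_pos_iff.mpr (sub_ne_zero.mpr (hB 0))
    have hkp : ∀ k, w k ≠ p := by
      intro k h1
      rw [← h1, ← e 0 k] at e2
      nlinarith
    have hpo : o ≠ p := by
      intro h1
      rw [← h1] at e2
      simp at e2
      exact hB 0 (sub_eq_zero.mp e2)
    have f2 := hF (Finset.univ.erase 0) 2 (by decide) 1 (by decide) (hkp 2) (hkp 1)
    have f3 := hF (Finset.univ.erase 0) 3 (by decide) 1 (by decide) (hkp 3) (hkp 1)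
    rw [← hp] at f2 f3
    have := EuclideanGeometry.eq_of_dist_eq_of_dist_eq_of_finrank_eq_two (V := ℂ) (P := ℂ)
      Complex.finrank_real_complex (c₁ := o) (c₂ := p) (p₁ := w 1) (p₂ := w 2) (p := w 3)
      (r₁ := ‖w 1 - o‖) (r₂ := ‖w 1 - p‖) hpo (fun h => absurd (hw h) (by decide))
      (dist_eq_norm _ _) (by rw [dist_eq_norm, e 2 1]) (by rw [dist_eq_norm, e 3 1])
      (dist_eq_norm _ _) (by rw [dist_eq_norm, f2]) (by rw [dist_eq_norm, f3])
    rcases this with h1 | h1
    · exact absurd (hw h1) (by decide)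
    · exact absurd (hw h1) (by decide)

end Pool.Agent.H.MP_8e2340_co
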