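import Mathlib
import Pool.Agent.H.MP_8e2340_co.Fin
import Pool.Agent.H.MP_8e2340_co.Alm

set_option autoImplicit false

namespace Pool.Agent.H.MP_8e2340_co

open Filter

noncomputable def ind (p z : ℂ) : ℤ := by classical exact if z = p then 1 else 0

lemma ind_self (p : ℂ) : ind p p = 1 := by simp [ind]
lemma ind_ne {p z : ℂ} (h : z ≠ p) : ind p z = 0 := by simp [ind, h]
lemma ind_congr {p z p' z' : ℂ} (h : z = p ↔ z' = p') : ind p z = ind p' z' := by
  by_cases h1 : z = p
  · rw [h1, h.mp h1, ind_self, ind_self]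
  · rw [ind_ne h1, ind_ne (fun h2 => h1 (h.mpr h2))]

def fl (S : Finset (Fin 4)) (i : Fin 4) : Finset (Fin 4) := if i ∈ S then S.erase i else insert i S

lemma fl_fl : ∀ (S : Finset (Fin 4)) (i : Fin 4), fl (fl S i) i = S := by decide
lemma mem_fl : ∀ (S : Finset (Fin 4)) (i j : Fin 4), j ∈ fl S i ↔ (j ∈ S ↔ j ≠ i) := by decide

structure Data (w : Fin 4 → ℂ) (F : Finset (Fin 4) → ℂ → ℤ) : Prop where
  inj : Function.Injective w
  h01 : ∀ S z, F S z = 0 ∨ F S z = 1
  hW : ∀ S i, F S (w i) = if i ∈ S then 1 else 0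
  hoff : ∀ S S' z, (∀ i, z ≠ w i) → F S z = F S' z

variable {w : Fin 4 → ℂ} {F : Finset (Fin 4) → ℂ → ℤ}

lemma Data.flip (D : Data w F) (S : Finset (Fin 4)) (i : Fin 4) :
    ∃ σ : ℤ, σ ≠ 0 ∧ ∀ z, F (fl S i) z = F S z + σ * ind (w i) z := by
  refine ⟨if i ∈ S then -1 else 1, by split_ifs <;> norm_num, fun z => ?_⟩
  by_cases hz : ∃ j, z = w j
  · obtain ⟨j, rfl⟩ := hz
    rw [D.hW, D.hW]
    by_cases hji : j = i
    · subst hji
      rw [ind_self]
      by_cases h : j ∈ S <;> simp [mem_fl, h]
    · rw [ind_ne (fun h => hji (D.inj h))]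
      by_cases h : j ∈ S <;> simp [mem_fl, h, hji]
  · push Not at hz
    rw [ind_ne (hz i), D.hoff (fl S i) S z hz]; simp

lemma Data.ev (D : Data w F) (S S' : Finset (Fin 4)) : ∀ᶠ z in cofinite, F S z = F S' z := by
  have : ∀ᶠ z in cofinite, z ∉ Set.range w := (Set.finite_range w).eventually_cofinite_notMem
  exact this.mono (fun z hz => D.hoff S S' z (fun i h => hz ⟨i, h.symm⟩))

noncomputable def aff (a b : ℂ) (ha : a ≠ 0) : ℂ ≃ ℂ :=
  (Equiv.mulLeft₀ a ha).trans (Equiv.addRight b)

lemma aff_apply (a b : ℂ) (ha : a ≠ 0) (z : ℂ) : aff a b ha z = a * z + b := rfl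

def HS (F : Finset (Fin 4) → ℂ → ℤ) : Prop :=
  ∀ S, ∃ a b : ℂ, ‖a‖ = 1 ∧ ¬ (a = 1 ∧ b = 0) ∧ ∀ z, F S (a * z + b) = F S z

lemma Data.ai (D : Data w F) (S S' : Finset (Fin 4)) (a b : ℂ) (ha : a ≠ 0)
    (h : ∀ z, F S (a * z + b) = F S z) : ∀ᶠ z in cofinite, F S' (a * z + b) = F S' z := by
  have h1 := (aff a b ha).injective.tendsto_cofinite.eventually (D.ev S S')
  filter_upwards [h1, D.ev S S'] with z e1 e2
  rw [aff_apply] at e1
  rw [← e1, h, e2]

lemma good (D : Data w F) (hs : HS F) (S0 : Finset (Fin 4)) (hp : Per (F S0)) : False := by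
  classical
  obtain ⟨t, ht, c0, hc, hinv⟩ := hp
  have hc' : ∀ S, ∀ᶠ z in cofinite, c0 z = F S z := fun S => by
    filter_upwards [hc, D.ev S0 S] with z e1 e2
    rw [e1, e2]
  have h01 : ∀ z, c0 z * (c0 z - 1) = 0 := by
    apply zero_of_inv' (fun z => c0 z * (c0 z - 1)) t ht
    · refine hc.mono (fun z e => ?_)
      rcases D.h01 S0 z with h | h <;> simp [e, h]
    · intro z; rw [hinv]
  have hfin : {z | F S0 z ≠ c0 z}.Finite := by
    have := Filter.eventually_cofinite.mp hc
    exact this.subset (fun z hz e => hz e.symm)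
  set T : Finset ℂ := hfin.toFinset.filter (fun z => ∀ i, z ≠ w i) with hT
  apply fin_case T w D.inj (fun i hi => (Finset.mem_filter.mp hi).2 i rfl)
  intro S'
  set S : Finset (Fin 4) := Finset.univ.filter (fun i => (i ∈ S' ↔ c0 (w i) = 0)) with hS
  have hmem : ∀ z, z ∈ T ∪ S'.image w ↔ F S z ≠ c0 z := by
    intro z
    by_cases hz : ∃ j, z = w j
    · obtain ⟨j, rfl⟩ := hz
      have h1 : w j ∉ T := fun hi => (Finset.mem_filter.mp hi).2 j rfl
      rw [D.hW]
      simp only [Finset.mem_union, h1, false_or, D.inj.mem_finset_image, hS, Finset.mem_filter,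
        Finset.mem_univ, true_and]
      rcases mul_eq_zero.mp (h01 (w j)) with h | h
      · by_cases h2 : j ∈ S' <;> simp [h, h2]
      · have h3 : c0 (w j) = 1 := by linarith
        by_cases h2 : j ∈ S' <;> simp [h3, h2]
    · push Not at hz
      rw [D.hoff S S0 z hz]
      simp only [Finset.mem_union, hT, Finset.mem_filter, Set.Finite.mem_toFinset,
        Set.mem_ofPred_eq, Finset.mem_image]
      constructor
      · rintro (h | ⟨j, _, h⟩)
        · exact h.1
        · exact absurd h.symm (hz j)
      · intro h; exact Or.inl ⟨h, hz⟩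
  obtain ⟨a, b, ha, hne, hsym⟩ := hs S
  have ha0 : a ≠ 0 := by rintro rfl; simp at ha
  refine ⟨a, b, ha, hne, fun z hz => ?_⟩
  have hst := star c0 t ht hinv (aff a b ha0) (a * t) (fun z => by simp only [aff_apply]; ring) (by
    have h1 := (aff a b ha0).injective.tendsto_cofinite.eventually (hc' S)
    filter_upwards [h1, hc' S] with z e1 e2
    rw [e1, e2, aff_apply, hsym])
  rw [hmem] at hz ⊢
  have := hst z
  rw [aff_apply] at this
  rw [hsym, this]; exact hz

lemma nonhalf (D : Data w F) (hs : HS F) (S : Finset (Fin 4)) (a b : ℂ) (ha : ‖a‖ = 1)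
    (hne : ¬ (a = 1 ∧ b = 0)) (hsym : ∀ z, F S (a * z + b) = F S z) : a = -1 := by
  by_contra hm
  have ha0 : a ≠ 0 := by rintro rfl; simp at ha
  by_cases h1 : a = 1
  · subst h1
    exact good D hs S ⟨b, fun h => hne ⟨rfl, h⟩, F S, Eventually.of_forall (fun _ => rfl),
      fun z => by simpa using hsym z⟩
  have : ∃ i, a * w i + b ≠ w i := by
    by_contra hc
    push Not at hc
    have : (a - 1) * (w 0 - w 1) = 0 := by linear_combination hc 0 - hc 1
    rcases mul_eq_zero.mp this with h | h
    · exact h1 (sub_eq_zero.mp h)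
    · exact absurd (D.inj (sub_eq_zero.mp h)) (by decide)
  obtain ⟨i, hi⟩ := this
  obtain ⟨σ, hσ, hfl⟩ := D.flip S i
  obtain ⟨a', b', ha', hne', hsym'⟩ := hs (fl S i)
  have ha0' : a' ≠ 0 := by rintro rfl; simp at ha'
  have hA := D.ai S S a b ha0 hsym
  have hB := D.ai (fl S i) S a' b' ha0' hsym'
  by_cases ht : a * b' + b - (a' * b + b') = 0
  · -- commuting case
    have hcomm : ∀ z, a * (a' * z + b') + b = a' * (a * z + b) + b' := fun z => by
      linear_combination ht
    have key : ∀ z, ind (w i) (a * z + b) - ind (w i) (a' * (a * z + b) + b') =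
        ind (w i) z - ind (w i) (a' * z + b') := by
      intro z
      have e1 := hsym' z
      have e2 := hsym' (a * z + b)
      rw [hfl, hfl] at e1 e2
      rw [← hcomm, hsym, hsym, hcomm] at e2
      apply mul_left_cancel₀ hσ
      linarith
    by_cases hfix : a' * w i + b' = w i
    · have h2 : a' * (a * w i + b) + b' = a * w i + b := by rw [← hcomm, hfix]
      have : (a' - 1) * (a * w i + b - w i) = 0 := by linear_combination h2 - hfix
      rcases mul_eq_zero.mp this with h | h
      · have h3 : a' = 1 := sub_eq_zero.mp h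
        exact hne' ⟨h3, by rw [h3] at hfix; linear_combination hfix⟩
      · exact hi (sub_eq_zero.mp h)
    · have := key (w i)
      rw [ind_self, ind_ne hfix, ind_ne hi] at this
      unfold ind at this
      split_ifs at this <;> omega
  · set t := a * b' + b - (a' * b + b') with htd
    have hT : ∀ᶠ z in cofinite, F S (z + t) = F S z := by
      have h2 : ∀ᶠ z in cofinite, F S (a' * (a * z + b) + b' + t) = F S (a' * (a * z + b) + b') := by
        have h3 := (aff a b ha0).injective.tendsto_cofinite.eventually hB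
        filter_upwards [h3, hB] with z e1 e2
        rw [aff_apply] at e1
        have : a' * (a * z + b) + b' + t = a * (a' * z + b') + b := by rw [htd]; ring
        rw [this, hsym, e1, e2, hsym]
      have h4 := ((aff a b ha0).trans (aff a' b' ha0')).symm.injective.tendsto_cofinite.eventually h2
      refine h4.mono (fun z e => ?_)
      have h5 := ((aff a b ha0).trans (aff a' b' ha0')).apply_symm_apply z
      rw [Equiv.trans_apply, aff_apply, aff_apply] at h5
      rw [h5] at e; exact e
    have hT2 : ∀ᶠ z in cofinite, F S (z + a * t) = F S z := by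
      have h2 : ∀ᶠ z in cofinite, F S (a * z + b + a * t) = F S (a * z + b) := by
        refine hT.mono (fun z e => ?_)
        have : a * z + b + a * t = a * (z + t) + b := by ring
        rw [this, hsym, hsym, e]
      have h4 := (aff a b ha0).symm.injective.tendsto_cofinite.eventually h2
      refine h4.mono (fun z e => ?_)
      have h5 := (aff a b ha0).apply_symm_apply z
      rw [aff_apply] at h5
      rw [h5] at e; exact e
    apply good D hs S
    apply per_of_indep (F S) (a * t) t ht _ hT hT2
    intro n hn k hk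
    have h2 : (n : ℂ) * a = k := by
      apply mul_right_cancel₀ ht
      linear_combination hk
    have h3 : (n : ℝ) = |(k : ℝ)| := by
      have := congrArg norm h2
      rw [norm_mul, ha, Complex.norm_natCast, Complex.norm_intCast, mul_one] at this
      exact this
    have hn0 : (n : ℂ) ≠ 0 := by exact_mod_cast hn.ne'
    rcases abs_cases (k : ℝ) with h | h
    · rw [h.1] at h3
      have h4 : (k : ℂ) = n := by exact_mod_cast h3.symm
      rw [h4] at h2
      exact h1 (mul_left_cancel₀ hn0 (by rw [h2, mul_one]))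
    · rw [h.1] at h3
      have h4 : (n : ℂ) = -k := by exact_mod_cast h3
      apply hm
      apply mul_left_cancel₀ hn0
      rw [h2, h4]; ring

theorem main (D : Data w F) (hs : HS F) : False := by
  classical
  have hb : ∀ S, ∃ b : ℂ, ∀ z, F S (b - z) = F S z := by
    intro S
    obtain ⟨a, b, ha, hne, hsym⟩ := hs S
    have := nonhalf D hs S a b ha hne hsym
    subst this
    exact ⟨b, fun z => by rw [← hsym z]; congr 1; ring⟩
  choose b hb using hb
  choose σ hσ hfl using D.flip
  set τ : Finset (Fin 4) → Fin 4 → ℂ := fun S i => b (fl S i) - b S with hτ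
  have hE : ∀ S i z, F S (z + τ S i) - F S z =
      σ S i * (ind (b S - w i) z - ind (w i - τ S i) z) := by
    intro S i z
    have e1 := hb (fl S i) (b S - z)
    rw [hfl, hfl, hb] at e1
    have e2 : b (fl S i) - (b S - z) = z + τ S i := by simp only [hτ]; ring
    rw [e2] at e1
    have e3 : ind (w i) (z + τ S i) = ind (w i - τ S i) z := ind_congr (by
      constructor <;> intro h <;> linear_combination h)
    have e4 : ind (w i) (b S - z) = ind (b S - w i) z := ind_congr (by
      constructor <;> intro h <;> linear_combination -h)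
    rw [e3, e4] at e1
    linarith
  have hfs : ∀ S i z, F S (z + τ S i) - F S z =
      (Finsupp.single (b S - w i) (σ S i) - Finsupp.single (w i - τ S i) (σ S i) : ℂ →₀ ℤ) z := by
    intro S i z
    rw [hE]
    simp only [Finsupp.sub_apply, Finsupp.single_apply, ind, eq_comm (a := z)]
    split_ifs <;> ring
  have E0 : ∀ S i, τ S i = 0 → b S = 2 * w i := by
    intro S i h
    have := hE S i (w i)
    rw [h, add_zero, sub_self, sub_zero, ind_self] at this
    by_contra hc
    rw [ind_ne (fun e => hc (by linear_combination -e))] at this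
    exact hσ S i (by linarith)
  have E1' : ∀ S i, τ S i ≠ 0 →
      ((b S - w i : ℂ) : Q (τ S i)) ≠ ((w i - τ S i : ℂ) : Q (τ S i)) := by
    intro S i h e
    apply good D hs S
    apply per_of_pr (F S) _ h _ (hfs S i)
    unfold pr
    rw [← Finsupp.mapDomain.addMonoidHom_apply, map_sub]
    simp only [Finsupp.mapDomain.addMonoidHom_apply, Finsupp.mapDomain_single]
    rw [e, sub_self]
  have E1 : ∀ S i, τ S i ≠ 0 → ∀ k : ℤ, b S - w i - (w i - τ S i) ≠ k * τ S i := by
    intro S i h k e
    apply E1' S i h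
    rw [eq_comm, QuotientAddGroup.eq]
    exact ⟨k, by simp only [zsmul_eq_mul]; linear_combination -e⟩
  have E2' : ∀ S i j, τ S i ≠ 0 → ∃ k : ℤ, τ S j = k * τ S i := by
    intro S i j h
    have h1 := shiftinv (F S) (τ S j) (τ S i) _ _ (hfs S i) (hfs S j) ((b S - w i : ℂ) : Q (τ S i))
    unfold pr at h1
    rw [← Finsupp.mapDomain.addMonoidHom_apply, map_sub] at h1
    simp only [Finsupp.mapDomain.addMonoidHom_apply, Finsupp.mapDomain_single, Finsupp.sub_apply,
      Finsupp.single_eq_same] at h1
    rw [Finsupp.single_eq_of_ne (E1' S i h)] at h1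
    have h2 : ((b S - w i : ℂ) : Q (τ S i)) + ((τ S j : ℂ) : Q (τ S i)) = ((b S - w i : ℂ) : Q (τ S i)) := by
      by_contra hc
      rw [Finsupp.single_eq_of_ne hc, Finsupp.single_apply] at h1
      have := hσ S i
      split_ifs at h1 <;> omega
    rw [add_eq_left, QuotientAddGroup.eq_zero_iff] at h2
    obtain ⟨k, hk⟩ := h2
    exact ⟨k, by simp only [zsmul_eq_mul] at hk; exact hk.symm⟩
  have E2 : ∀ S i j, τ S i ≠ 0 → τ S j ≠ 0 → τ S j = τ S i ∨ τ S j = - τ S i := by
    intro S i j hi hj
    obtain ⟨k, hk⟩ := E2' S i j hi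
    obtain ⟨m, hm⟩ := E2' S j i hj
    have : (m : ℂ) * k = 1 := by
      apply mul_right_cancel₀ hi
      rw [mul_assoc, ← hk, ← hm, one_mul]
    have h2 : m * k = 1 := by exact_mod_cast this
    rcases Int.eq_one_or_neg_one_of_mul_eq_one' h2 with h | h
    · left; rw [hk, h.2]; simp
    · right; rw [hk, h.2]; simp
  have hpq : ∀ S i, τ S i ≠ 0 → w i - τ S i ≠ b S - w i := by
    intro S i h e
    exact E1 S i h 0 (by simp [e])
  have E3 : ∀ S i j, i ≠ j → τ S i ≠ 0 → τ S j = τ S i → w j = b S + τ S i - w i := by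
    intro S i j hij hi h
    have e1 := hE S i (w i - τ S i)
    have e2 := hE S j (w i - τ S i)
    rw [h, e1, ind_self, ind_ne (hpq S i hi),
      ind_ne (p := w j - τ S i) (fun e => hij (D.inj (by linear_combination e)))] at e2
    by_contra hc
    rw [ind_ne (fun e => hc (by linear_combination e))] at e2
    exact hσ S i (by linarith)
  have E4 : ∀ S i j, τ S i ≠ 0 → τ S j = - τ S i → w i = b S - w j ∨ w i = w j + τ S i := by
    intro S i j hi h
    have e1 := hE S i (w i - τ S i)
    have e2 := hE S j (w i)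
    rw [ind_self, ind_ne (hpq S i hi), sub_add_cancel] at e1
    rw [h, ← sub_eq_add_neg] at e2
    by_contra hc
    push Not at hc
    rw [ind_ne hc.1, ind_ne (fun e => hc.2 (by linear_combination e))] at e2
    exact hσ S i (by linarith)
  have adj : ∀ S i j, i ≠ j → τ S i ≠ 0 → w i = w j + τ S i → False := by
    intro S i j hij hi h
    have t1 : τ (fl S i) i = - τ S i := by simp only [hτ, fl_fl]; ring
    have t2 : b (fl S i) = b S + τ S i := by simp only [hτ]; ring
    have hi' : τ (fl S i) i ≠ 0 := by rw [t1]; exact neg_ne_zero.mpr hi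
    by_cases h0 : τ (fl S i) j = 0
    · have := E0 _ _ h0
      exact E1 S i hi (-2) (by push_cast; linear_combination this - t2 - 2 * h)
    · rcases E2 (fl S i) i j hi' h0 with h1 | h1
      · have := E3 (fl S i) i j hij hi' h1
        exact E1 S i hi 0 (by push_cast; linear_combination -this - t2 - t1 - h)
      · rcases E4 (fl S i) i j hi' h1 with h2 | h2
        · exact E1 S i hi (-1) (by push_cast; linear_combination -h2 - t2 - h)
        · apply hi
          linear_combination (1 / 2 : ℂ) * (h2 - h + t1)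
  have three : ∀ S i j k, i ≠ j → i ≠ k → j ≠ k → τ S i ≠ 0 → τ S j = τ S i → τ S k ≠ 0 → False := by
    intro S i j k hij hik hjk hi h hk
    rcases E2 S i k hi hk with h1 | h1
    · exact hjk (D.inj ((E3 S i j hij hi h).trans (E3 S i k hik hi h1).symm))
    · rcases E4 S i k hi h1 with h2 | h2
      · rcases E4 S j k (h ▸ hi) (by rw [h]; exact h1) with h3 | h3
        · exact hij (D.inj (h2.trans h3.symm))
        · exact adj S j k hjk (h ▸ hi) h3
      · exact adj S i k hik hi h2
  have three' : ∀ S i j k, i ≠ j → i ≠ k → j ≠ k → τ S i ≠ 0 → τ S j ≠ 0 → τ S k ≠ 0 → False := by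
    intro S i j k hij hik hjk hi hj hk
    rcases E2 S i j hi hj with h1 | h1
    · exact three S i j k hij hik hjk hi h1 hk
    · rcases E2 S i k hi hk with h2 | h2
      · exact three S i k j hik hij hjk.symm hi h2 hj
      · exact three S j k i hjk hij.symm hik.symm hj (h2.trans h1.symm) hi
  have one : ∀ i j, τ ∅ i = 0 → τ ∅ j = 0 → i = j := by
    intro i j hi hj
    apply D.inj
    linear_combination (1 / 2 : ℂ) * (E0 _ _ hj - E0 _ _ hi)
  by_cases h : ∃ j, τ ∅ j = 0
  · obtain ⟨j, hj⟩ := h
    have : ∀ j : Fin 4, ∃ i k l : Fin 4, i ≠ j ∧ k ≠ j ∧ l ≠ j ∧ i ≠ k ∧ i ≠ l ∧ k ≠ l := by decide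
    obtain ⟨i, k, l, h1, h2, h3, h4, h5, h6⟩ := this j
    exact three' ∅ i k l h4 h5 h6 (fun h => h1 (one i j h hj)) (fun h => h2 (one k j h hj))
      (fun h => h3 (one l j h hj))
  · push Not at h
    exact three' ∅ 0 1 2 (by decide) (by decide) (by decide) (h 0) (h 1) (h 2)

end Pool.Agent.H.MP_8e2340_co
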